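import Pool.Agent.Helper41_IR.Stmts
import Pool.Agent.Helper17_Anderson.Khintchine
import Pool.Agent.Helper17_Anderson.OpNorm
import Pool.Agent.Helper17_Anderson.Prob

/-!
# IR, module KHI: Khintchine inequality for `T D Tᵀ`
-/

set_option autoImplicit false

open MeasureTheory ProbabilityTheory Matrix

open scoped ENNReal NNReal BigOperators ComplexConjugate ComplexOrder

noncomputable section

namespace Pool.Agent.IR.H54

open Pool.Agent.Anderson

variable {n : Type} [Fintype n] [DecidableEq n]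

/-- a real matrix as a complex one -/
def cx (A : Matrix n n ℝ) : Matrix n n ℂ := A.map (fun t : ℝ => (t : ℂ))

omit [DecidableEq n] in
theorem cx_mul (A B : Matrix n n ℝ) : cx (A * B) = cx A * cx B := by
  unfold cx
  ext i j
  simp only [Matrix.map_apply, Matrix.mul_apply, Complex.ofReal_sum, Complex.ofReal_mul]

omit [Fintype n] in
theorem cx_one : cx (1 : Matrix n n ℝ) = 1 := by
  unfold cx
  ext i j
  simp only [Matrix.map_apply, Matrix.one_apply]
  split_ifs <;> simp

theorem cx_pow (A : Matrix n n ℝ) (q : ℕ) : cx (A ^ q) = cx A ^ q := by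
  induction q with
  | zero => rw [pow_zero, pow_zero, cx_one]
  | succ q ih => rw [pow_succ, pow_succ, cx_mul, ih]

omit [Fintype n] [DecidableEq n] in
theorem cx_transpose (A : Matrix n n ℝ) : cx Aᵀ = (cx A)ᴴ := by
  unfold cx
  ext i j
  simp only [Matrix.map_apply, Matrix.transpose_apply, Matrix.conjTranspose_apply]
  exact (Complex.conj_ofReal _).symm

omit [Fintype n] in
theorem cx_diag (D : n → ℝ) : cx (diagonal D) = diagonal (fun y => (D y : ℂ)) := by
  unfold cx
  ext i j
  simp only [Matrix.map_apply, Matrix.diagonal_apply]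
  split_ifs <;> simp

omit [DecidableEq n] in
theorem cx_trace (A : Matrix n n ℝ) : (cx A).trace = ((A.trace : ℝ) : ℂ) := by
  unfold cx
  simp only [Matrix.trace, Matrix.diag_apply, Matrix.map_apply, Complex.ofReal_sum]

/-- cyclicity for powers of a product -/
theorem trace_mul_pow {R : Type*} [CommRing R] (A B : Matrix n n R) (q : ℕ) :
    ((A * B) ^ q).trace = ((B * A) ^ q).trace := by
  cases q with
  | zero => simp
  | succ q =>
    have h : (A * B) ^ (q + 1) = A * ((B * A) ^ q * B) := by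
      induction q with
      | zero => simp
      | succ q ih =>
        rw [pow_succ, ih, pow_succ (B * A) q]
        simp only [Matrix.mul_assoc]
    rw [h, Matrix.trace_mul_comm, pow_succ, Matrix.mul_assoc]

/-- the random matrix -/
def XT (T : Matrix n n ℝ) (D : n → ℝ) : Matrix n n ℝ := T * diagonal D * Tᵀ

theorem ip_XT (T : Matrix n n ℝ) (D a : n → ℝ) :
    ip a (XT T D *ᵥ a) = ∑ y, D y * ((Tᵀ *ᵥ a) y) ^ 2 := by
  have h : a ⬝ᵥ (XT T D *ᵥ a) = (Tᵀ *ᵥ a) ⬝ᵥ (diagonal D *ᵥ (Tᵀ *ᵥ a)) := by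
    unfold XT
    rw [← mulVec_mulVec, ← mulVec_mulVec, dotProduct_mulVec, ← mulVec_transpose]
  unfold ip
  unfold dotProduct at h
  rw [h]
  apply Finset.sum_congr rfl
  intro y _
  rw [mulVec_diagonal]
  ring

theorem trace_XT (T : Matrix n n ℝ) (D : n → ℝ) {C : Matrix n n ℂ}
    (hC : C * C = (cx T)ᴴ * cx T) (q : ℕ) :
    (((XT T D) ^ q).trace : ℝ) = ((XM C D) ^ q).trace.re := by
  have h1 : ((((XT T D) ^ q).trace : ℝ) : ℂ) = ((XM C D) ^ q).trace := by
    rw [← cx_trace, cx_pow]
    unfold XT XM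
    rw [cx_mul, cx_mul, cx_transpose, cx_diag, Matrix.mul_assoc (cx T), trace_mul_pow,
      Matrix.mul_assoc (diagonal _), ← hC, ← Matrix.mul_assoc (diagonal _) C C,
      trace_mul_pow (diagonal _ * C) C, ← Matrix.mul_assoc]
  rw [← h1, Complex.ofReal_re]

theorem XT_herm (T : Matrix n n ℝ) (D : n → ℝ) : (cx (XT T D)).IsHermitian := by
  unfold Matrix.IsHermitian
  rw [← cx_transpose]
  congr 1
  unfold XT
  rw [transpose_mul, transpose_mul, transpose_transpose, diagonal_transpose, ← Matrix.mul_assoc]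

/-- operator bound from the trace -/
theorem op_XT (T : Matrix n n ℝ) (D : n → ℝ) {p : ℕ} (hp : 1 ≤ p) {ρ : ℝ} (hρ : 0 < ρ)
    (h : ((XT T D) ^ (2 * p)).trace ≤ ρ ^ (2 * p)) (a : n → ℝ) :
    |ip a (XT T D *ᵥ a)| ≤ ρ * sqn a := by
  have h1 : (cx (XT T D) ^ (2 * p)).trace.re ≤ ρ ^ (2 * p) := by
    rw [← cx_pow, cx_trace, Complex.ofReal_re]
    exact h
  have h2 := op_of_trace (XT_herm T D) hp hρ.le h1 (fun x => (a x : ℂ))
  have h3 : ∀ x, (cx (XT T D) *ᵥ fun x => (a x : ℂ)) x = (((XT T D *ᵥ a) x : ℝ) : ℂ) := by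
    intro x
    simp only [mulVec, dotProduct, cx, Matrix.map_apply, Complex.ofReal_sum, Complex.ofReal_mul]
  have h4 : sqn (XT T D *ᵥ a) ≤ ρ ^ 2 * sqn a := by
    unfold nsq at h2
    simp only [h3, Complex.norm_real, Real.norm_eq_abs, sq_abs] at h2
    exact h2
  have h5 : (ip a (XT T D *ᵥ a)) ^ 2 ≤ sqn a * sqn (XT T D *ᵥ a) := by
    unfold ip sqn
    exact Finset.sum_mul_sq_le_sq_mul_sq _ _ _
  have h6 : 0 ≤ sqn a := Finset.sum_nonneg fun _ _ => sq_nonneg _
  apply abs_le_of_sq_le_sq _ (by positivity)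
  calc (ip a (XT T D *ᵥ a)) ^ 2 ≤ sqn a * sqn (XT T D *ᵥ a) := h5
    _ ≤ sqn a * (ρ ^ 2 * sqn a) := by gcongr
    _ = (ρ * sqn a) ^ 2 := by ring

theorem gau_sg (v : ℝ≥0) (b : Bool) :
    MeasurePreserving (fun t : ℝ => sg b * t) (gaussianReal 0 v) (gaussianReal 0 v) := by
  cases b
  · have : (fun t : ℝ => sg false * t) = fun t => -t := by
      funext t; simp [sg]
    rw [this]
    refine ⟨measurable_neg, ?_⟩
    rw [gaussianReal_map_neg, neg_zero]
  · have : (fun t : ℝ => sg true * t) = id := by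
      funext t; simp [sg]
    rw [this]
    exact MeasurePreserving.id _

/-- Module KHI. -/
theorem khi : KhiStmt := by
  intro n _ _ T v κ L s ρ p hκ0 hL hs hρ hp hκ hK
  have hps : ((cx T)ᴴ * cx T).PosSemidef := Matrix.posSemidef_conjTranspose_mul_self _
  obtain ⟨C, hC, hCC⟩ := exists_sqrt hps
  set P := Measure.pi fun _ : n => gaussianReal 0 v with hP
  have hκC : ∀ y, ((C * C) y y).re ≤ κ := by
    intro y
    rw [hCC, Matrix.mul_apply, Complex.re_sum]
    refine le_trans (le_of_eq ?_) (hκ y)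
    apply Finset.sum_congr rfl
    intro x _
    rw [conjTranspose_apply]
    unfold cx
    simp only [Matrix.map_apply]
    have e : star ((T x y : ℝ) : ℂ) = ((T x y : ℝ) : ℂ) := Complex.conj_ofReal _
    rw [e, ← Complex.ofReal_mul, Complex.ofReal_re]
    ring
  have hKC : ∀ w : n → ℂ, (star w ⬝ᵥ ((C * C) *ᵥ w)).re ≤ L * ∑ y, ‖w y‖ ^ 2 := by
    intro w
    have e1 : star w ⬝ᵥ ((C * C) *ᵥ w) = star (cx T *ᵥ w) ⬝ᵥ (cx T *ᵥ w) := by
      rw [hCC, ← mulVec_mulVec, star_mulVec, ← dotProduct_mulVec]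
    have e2 : (star (cx T *ᵥ w) ⬝ᵥ (cx T *ᵥ w)).re = nsq (cx T *ᵥ w) := by
      rw [star_dot_self]
      exact Complex.ofReal_re _
    have e3 : ∀ x, (cx T *ᵥ w) x = (((T *ᵥ fun y => (w y).re) x : ℝ) : ℂ) +
        (((T *ᵥ fun y => (w y).im) x : ℝ) : ℂ) * Complex.I := by
      intro x
      simp only [mulVec, dotProduct, cx, Matrix.map_apply, Complex.ofReal_sum, Complex.ofReal_mul]
      rw [Finset.sum_mul, ← Finset.sum_add_distrib]
      apply Finset.sum_congr rfl
      intro y _
      conv_lhs => rw [← Complex.re_add_im (w y)]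
      ring
    have e4 : nsq (cx T *ᵥ w) = sqn (T *ᵥ fun y => (w y).re) + sqn (T *ᵥ fun y => (w y).im) := by
      unfold nsq sqn
      rw [← Finset.sum_add_distrib]
      apply Finset.sum_congr rfl
      intro x _
      rw [e3 x, ← Complex.normSq_eq_norm_sq, Complex.normSq_add_mul_I]
    have e5 : ∑ y, ‖w y‖ ^ 2 = sqn (fun y => (w y).re) + sqn (fun y => (w y).im) := by
      unfold sqn
      rw [← Finset.sum_add_distrib]
      apply Finset.sum_congr rfl
      intro y _
      rw [← Complex.normSq_eq_norm_sq, Complex.normSq_apply]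
      ring
    rw [e1, e2, e4, e5, mul_add]
    exact add_le_add (hK _) (hK _)
  -- the truncated trace
  set F : (n → ℝ) → ℝ≥0∞ := fun D =>
    if ∀ y, |D y| ≤ s then ENNReal.ofReal ((XM C D ^ (2 * p)).trace.re) else 0 with hF
  have hset : MeasurableSet {D : n → ℝ | ∀ y, |D y| ≤ s} := by
    have : {D : n → ℝ | ∀ y, |D y| ≤ s} = ⋂ y, {D | |D y| ≤ s} := by
      ext D; simp
    rw [this]
    exact MeasurableSet.iInter fun y => measurableSet_le (by fun_prop) measurable_const
  have hFm : Measurable F :=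
    Measurable.ite hset
      (ENNReal.measurable_ofReal.comp (continuous_tr C (2 * p)).measurable) measurable_const
  have hsD : ∀ e : n → Bool, Measurable (fun D : n → ℝ => sD D e) := by
    intro e
    unfold sD
    apply measurable_pi_lambda
    intro y
    exact (measurable_pi_apply y).const_mul _
  have h2 : ∀ e : n → Bool, ∫⁻ D, F (sD D e) ∂P = ∫⁻ D, F D ∂P := by
    intro e
    have hp : MeasurePreserving (fun D : n → ℝ => sD D e) P P :=
      measurePreserving_pi (fun _ : n => gaussianReal 0 v) (fun _ : n => gaussianReal 0 v)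
        (f := fun y t => sg (e y) * t) (fun y => gau_sg v (e y))
    exact hp.lintegral_comp hFm
  have h4 : ∑ e : n → Bool, ∫⁻ D, F (sD D e) ∂P ≤
      ENNReal.ofReal ((2 ^ Fintype.card n) *
        (Fintype.card n * (2 * p * (s ^ 2 * κ * L)) ^ p)) := by
    have h6 := lintegral_finsetSum (μ := P) Finset.univ
      (f := fun (e : n → Bool) D => F (sD D e)) (fun e _ => hFm.comp (hsD e))
    rw [← h6]
    have h5 : ∀ D, ∑ e : n → Bool, F (sD D e) ≤
        ENNReal.ofReal ((2 ^ Fintype.card n) *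
          (Fintype.card n * (2 * p * (s ^ 2 * κ * L)) ^ p)) := by
      intro D
      by_cases hD : ∀ y, |D y| ≤ s
      · have h7 : ∀ e : n → Bool, F (sD D e) =
            ENNReal.ofReal ((XM C (sD D e) ^ (2 * p)).trace.re) := by
          intro e
          rw [hF]
          simp only
          rw [if_pos]
          intro y
          unfold sD
          rw [abs_mul, abs_sg, one_mul]
          exact hD y
        simp only [h7]
        rw [← ENNReal.ofReal_sum_of_nonneg (fun e _ => trace_pow_nonneg (XM_herm hC _) p)]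
        apply ENNReal.ofReal_le_ofReal
        exact khintchine hC hκ0 hL hκC hKC hD p
      · have h7 : ∀ e : n → Bool, F (sD D e) = 0 := by
          intro e
          rw [hF]
          simp only
          rw [if_neg]
          intro hcon
          apply hD
          intro y
          have := hcon y
          unfold sD at this
          rw [abs_mul, abs_sg, one_mul] at this
          exact this
        simp only [h7, Finset.sum_const_zero, zero_le]
    calc _ ≤ ∫⁻ _ : n → ℝ, ENNReal.ofReal ((2 ^ Fintype.card n) *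
          (Fintype.card n * (2 * p * (s ^ 2 * κ * L)) ^ p)) ∂P := lintegral_mono h5
      _ = _ := by rw [lintegral_const, measure_univ, mul_one]
  have h1 : ∫⁻ D, F D ∂P ≤ ENNReal.ofReal (Fintype.card n * (2 * p * (s ^ 2 * κ * L)) ^ p) := by
    simp only [h2] at h4
    rw [Finset.sum_const, Finset.card_univ, Fintype.card_fun, Fintype.card_bool,
      ENNReal.ofReal_mul (by positivity), nsmul_eq_mul] at h4
    have e2 : ENNReal.ofReal (2 ^ Fintype.card n) = ((2 ^ Fintype.card n : ℕ) : ℝ≥0∞) := by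
      rw [← ENNReal.ofReal_natCast]
      push_cast
      rfl
    rw [e2] at h4
    exact (ENNReal.mul_le_mul_iff_right (by positivity) (ENNReal.natCast_ne_top _)).1 h4
  have hsub : {D : n → ℝ | (∀ y, |D y| ≤ s) ∧
      ∃ a : n → ℝ, ρ * sqn a < |∑ y, D y * ((Tᵀ *ᵥ a) y) ^ 2|} ⊆
      {D | ENNReal.ofReal (ρ ^ (2 * p)) ≤ F D} := by
    rintro D ⟨hD, a, ha⟩
    rw [Set.mem_ofPred_eq, hF]
    simp only
    rw [if_pos hD, ← trace_XT T D hCC]
    apply ENNReal.ofReal_le_ofReal
    by_contra hcon
    push Not at hcon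
    have := op_XT T D hp hρ hcon.le a
    rw [ip_XT] at this
    linarith
  refine (measure_mono hsub).trans ?_
  have h5 := meas_ge_le_lintegral_div (μ := P) hFm.aemeasurable
    (ε := ENNReal.ofReal (ρ ^ (2 * p))) (by
      rw [Ne, ENNReal.ofReal_eq_zero, not_le]; positivity) ENNReal.ofReal_ne_top
  refine h5.trans ?_
  rw [ENNReal.div_le_iff (by rw [Ne, ENNReal.ofReal_eq_zero, not_le]; positivity)
    ENNReal.ofReal_ne_top, ← ENNReal.ofReal_mul (by positivity)]
  refine h1.trans (le_of_eq ?_)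
  congr 1
  rw [pow_mul ρ, mul_assoc (Fintype.card n : ℝ), ← mul_pow]
  congr 2
  field_simp

end Pool.Agent.IR.H54
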